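import Pool.Agent.Y877.SxI
import Pool.Agent.Y877.SxK

/-!
# Chen's theorem and primes `p_{q+2} + h` for almost all multiples `h` of a small primorial
-/

set_option autoImplicit false

open Finset

namespace Pool.Agent.Results.MP_0ec542_nt.ChenIndexShifts

/-- `m ≥ 1` is a product of at most two primes -/
def P2 (m : ℕ) : Prop := 0 < m ∧ m.primeFactorsList.length ≤ 2

/-- the product of `1 - 1/p` over the primes `p ≤ y` -/
noncomputable def V (y : ℕ) : ℝ := ∏ p ∈ (Icc 1 y).filter Nat.Prime, (1 - 1 / (p : ℝ))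

open Classical in
/-- the primes `q < 2 n` such that `2 n - q` is a product of at most two primes -/
noncomputable def Chen (n : ℕ) : Finset ℕ := (range (2 * n)).filter (fun q => q.Prime ∧ P2 (2 * n - q))

/-- the `q ∈ Q` such that `p_{q+2} + h` is prime (`p_{q+2}` is the prime number `q + 2`, counted from `p_1 = 2`) -/
noncomputable def Good (Q : Finset ℕ) (h : ℕ) : Finset ℕ := Q.filter (fun q => (Nat.nth Nat.Prime (q + 1) + h).Prime)

theorem nth_inj : Function.Injective (Nat.nth Nat.Prime) := Nat.nth_injective Nat.infinite_setOfPred_prime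

theorem chen_sub (n : ℕ) : ((Ioc 0 (2 * n)).filter (fun p : ℕ => p.Prime ∧ ((2 * n : ℕ) : ℤ) - p ≠ 0 ∧
    (((2 * n : ℕ) : ℤ) - p).natAbs.primeFactorsList.length ≤ 2)).card ≤ (Chen n).card := by
  classical
  apply card_le_card
  intro p hp
  rw [mem_filter, mem_Ioc] at hp
  obtain ⟨⟨_, h1⟩, h2, h3, h4⟩ := hp
  have h5 : p < 2 * n := by omega
  unfold Chen
  rw [mem_filter, mem_range]
  have h6 : (((2 * n : ℕ) : ℤ) - p).natAbs = 2 * n - p := by omega
  rw [h6] at h4
  exact ⟨h5, h2, (by omega : 0 < 2 * n - p), h4⟩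

theorem chen_low : ∃ c : ℝ, 0 < c ∧ ∃ n₀ : ℕ, ∀ n : ℕ, n₀ ≤ n → c * n / Real.log n ^ 2 ≤ ((Chen n).card : ℝ) := by
  obtain ⟨c, hc, X0, hX⟩ := Pool.Agent.Y877.SX.chen_cnt
  refine ⟨c / 2, by positivity, max X0 3, fun n hn => ?_⟩
  have b1 : X0 ≤ n := (le_max_left _ _).trans hn
  have b2 : 3 ≤ n := (le_max_right _ _).trans hn
  have h1 := hX (2 * n) (by omega) ((2 * n : ℕ) : ℤ) (by exact_mod_cast (by omega : 2 * n ≠ 0)) (by
    rw [abs_of_nonneg (by positivity)]) (by exact_mod_cast even_two_mul n)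
  have h2 : (((Ioc 0 (2 * n)).filter (fun p : ℕ => p.Prime ∧ ((2 * n : ℕ) : ℤ) - p ≠ 0 ∧
    (((2 * n : ℕ) : ℤ) - p).natAbs.primeFactorsList.length ≤ 2)).card : ℝ) ≤ (Chen n).card := by exact_mod_cast chen_sub n
  refine le_trans ?_ (h1.trans h2)
  have hnr : (3 : ℝ) ≤ n := by exact_mod_cast b2
  have hL : 0 < Real.log n := Real.log_pos (by linarith)
  have h3 : Real.log ((2 * n : ℕ) : ℝ) ≤ 2 * Real.log n := by
    push_cast
    have := Real.log_le_log (by linarith : (0 : ℝ) < 2 * n) (by nlinarith : (2 : ℝ) * n ≤ n ^ 2)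
    rwa [Real.log_pow, Nat.cast_ofNat] at this
  have h4 : 0 < Real.log ((2 * n : ℕ) : ℝ) := Real.log_pos (by push_cast; linarith)
  rw [div_le_div_iff₀ (by positivity) (by positivity)]
  have h5 : Real.log ((2 * n : ℕ) : ℝ) ^ 2 ≤ (2 * Real.log n) ^ 2 := pow_le_pow_left₀ h4.le h3 2
  have h6 : 0 ≤ c * n := by positivity
  push_cast at h5 ⊢
  nlinarith

/-- There is an absolute constant `c > 0` such that for all `A`, `C` and `0 < ε ≤ 1` there is `K₀` such that for every `K₁` and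
every large `n`, every `y` between `K₀ log log n` and `K₁ log log n`, and every window `(g₀, g₀ + G]` with `M (g₀ + G) ≤ n`,
`G ≥ n / (M log ^ C n)`, where `M` is the product of the primes `≤ y`: (1) for every set `Q` of at least `n / log ^ A n`
integers `q < 2 n`, for all but at most `ε G` of the `g ≤ G` the number `p_{q+2} + M (g₀ + g)` is prime for at least
`(1 - ε) #Q / (V y log n)` elements `q` of `Q`; (2) there are at least `c n / log ^ 2 n` primes `q < 2 n` with `2 n - q` a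
product of at most two primes, and the conclusion of (1) holds for the set of all these `q`. -/
theorem result : ∃ c : ℝ, 0 < c ∧ ∀ (A C : ℕ) (ε : ℝ), 0 < ε → ε ≤ 1 → ∃ K₀ : ℕ, ∀ K₁ : ℕ, ∃ n₀ : ℕ, ∀ n : ℕ, n₀ ≤ n →
    ∀ y : ℕ, K₀ * Real.log (Real.log n) ≤ y → y ≤ K₁ * Real.log (Real.log n) →
    ∀ g₀ G : ℕ, primorial y * (g₀ + G) ≤ n → (n : ℝ) ≤ primorial y * G * Real.log n ^ C →
    (∀ Q : Finset ℕ, Q ⊆ range (2 * n) → (n : ℝ) ≤ Q.card * Real.log n ^ A →
      (((Icc 1 G).filter (fun g => ((Good Q (primorial y * (g₀ + g))).card : ℝ) <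
        (1 - ε) * (Q.card / (V y * Real.log n)))).card : ℝ) ≤ ε * G) ∧
    c * n / Real.log n ^ 2 ≤ ((Chen n).card : ℝ) ∧
    (((Icc 1 G).filter (fun g => ((Good (Chen n) (primorial y * (g₀ + g))).card : ℝ) <
      (1 - ε) * ((Chen n).card / (V y * Real.log n)))).card : ℝ) ≤ ε * G := by
  obtain ⟨c, hc, n1, hn1⟩ := chen_low
  refine ⟨c, hc, fun A C ε hε hε1 => ?_⟩
  obtain ⟨K₀, hK₀⟩ := Pool.Agent.Y877.SX.step 1 (Or.inl rfl) (max A 3) 2 C ε hε hε1
  refine ⟨K₀, fun K₁ => ?_⟩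
  obtain ⟨n2, hn2⟩ := hK₀ K₁
  obtain ⟨n3, hn3⟩ := Pool.Agent.H373R2.T7.ev_L' (max 1 (1 / c))
  obtain ⟨n4, hn4⟩ := Pool.Agent.Y877.SX.nth_le_log
  refine ⟨max (max n1 n2) (max n3 (max n4 1)), fun n hn y hy1 hy2 g₀ G hg1 hg2 => ?_⟩
  have b1 : n1 ≤ n := le_trans (le_trans (le_max_left _ _) (le_max_left _ _)) hn
  have b2 : n2 ≤ n := le_trans (le_trans (le_max_right _ _) (le_max_left _ _)) hn
  have b3 : n3 ≤ n := le_trans (le_trans (le_max_left _ _) (le_max_right _ _)) hn
  have b4 : n4 ≤ n := le_trans (le_trans (le_trans (le_max_left _ _) (le_max_right _ _)) (le_max_right _ _)) hn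
  have b5 : 1 ≤ n := le_trans (le_trans (le_trans (le_max_right _ _) (le_max_right _ _)) (le_max_right _ _)) hn
  have hL := hn3 n b3
  have hL1 : 1 ≤ Real.log n := (le_max_left _ _).trans hL
  have hL2 : 1 / c ≤ Real.log n := (le_max_right _ _).trans hL
  have hlow := hn1 n b1
  have main : ∀ Q : Finset ℕ, Q ⊆ range (2 * n) → (n : ℝ) ≤ Q.card * Real.log n ^ (max A 3) →
      (((Icc 1 G).filter (fun g => ((Good Q (primorial y * (g₀ + g))).card : ℝ) <
        (1 - ε) * (Q.card / (V y * Real.log n)))).card : ℝ) ≤ ε * G := by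
    intro Q hQ hQc
    have h1 := hn2 n b2 y hy1 hy2 Q hQc (fun q => Nat.nth Nat.Prime (q + 1))
      (fun a _ b _ hab => by
        have := nth_inj hab
        omega)
      (fun q hq => ⟨Nat.prime_nth_prime _, hn4 n b4 (q + 1) (by
        have := mem_range.1 (hQ hq)
        omega)⟩) g₀ G (by rw [pow_one]; exact hg1) (by rw [pow_one]; exact hg2)
    refine le_trans (le_of_eq ?_) h1
    congr 2
    apply filter_congr
    intro g _
    simp only [pow_one, Nat.cast_one, one_mul]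
    rfl
  refine ⟨fun Q hQ hQc => main Q hQ (hQc.trans ?_), hlow, main (Chen n) ?_ ?_⟩
  · apply mul_le_mul_of_nonneg_left _ (Nat.cast_nonneg _)
    exact pow_le_pow_right₀ hL1 (le_max_left _ _)
  · classical
    exact filter_subset _ _
  · have h3 : Real.log n ^ 3 ≤ Real.log n ^ (max A 3) := pow_le_pow_right₀ hL1 (le_max_right _ _)
    refine le_trans ?_ (mul_le_mul_of_nonneg_left h3 (Nat.cast_nonneg _))
    have hL0 : 0 < Real.log n := by linarith
    rw [div_le_iff₀ (by positivity)] at hlow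
    rw [div_le_iff₀ hc] at hL2
    have hn0 : (0 : ℝ) ≤ n := Nat.cast_nonneg n
    calc (n : ℝ) = n * 1 := by ring
      _ ≤ n * (Real.log n * c) := mul_le_mul_of_nonneg_left hL2 hn0
      _ = (c * n) * Real.log n := by ring
      _ ≤ ((Chen n).card * Real.log n ^ 2) * Real.log n := mul_le_mul_of_nonneg_right hlow hL0.le
      _ = _ := by ring

end Pool.Agent.Results.MP_0ec542_nt.ChenIndexShifts
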